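import Mathlib

/-!
# Regulators of smooth projective schemes over number fields
-/

set_option autoImplicit false

namespace Pool.Agent.X264.RD

universe u

/-- A linear map `r : M → V` over a field `F` and a subspace `H` of `V`. -/
structure Datum (F : Type) [Field F] where
  M : Type u
  V : Type u
  [gM : AddCommGroup M]
  [gV : AddCommGroup V]
  [mM : Module F M]
  [mV : Module F V]
  r : M →ₗ[F] V
  H : Submodule F V

attribute [instance] Datum.gM Datum.gV Datum.mM Datum.mV

namespace Datum

variable {F : Type} [Field F]

/-- `r` is injective. -/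
def Inj (D : Datum.{u} F) : Prop := Function.Injective D.r

/-- `r` is injective with image `H`. -/
def Good (D : Datum.{u} F) : Prop := Function.Injective D.r ∧ LinearMap.range D.r = D.H

/-- `a : M → M'` and `α : V → V'` are compatible with `r`, `r'` and `H`, `H'`. -/
def IsMap (D D' : Datum.{u} F) (a : D.M →ₗ[F] D'.M) (α : D.V →ₗ[F] D'.V) : Prop :=
  (∀ x, D'.r (a x) = α (D.r x)) ∧ ∀ y ∈ D.H, α y ∈ D'.H

/-- `D` is a direct summand of `D'`. -/
def IsSummand (D D' : Datum.{u} F) : Prop :=
  ∃ a b α β, IsMap D D' a α ∧ IsMap D' D b β ∧ (∀ x, b (a x) = x) ∧ ∀ y, β (α y) = y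

end Datum

/-- Smooth projective schemes `Var K` over the number fields `K` (the elements of `Fld`, among them
`Q`), their dimensions, the predicate `rat X`: `X` is geometrically integral and rational over `K`,
and for all integers `i`, `j` the regulator `dat X i j`: the source `M` is the homologically trivial
part of the motivic cohomology group `H^i(X, ℚ(j))` (tensored with `F`), the target `V` is the Galois
cohomology group `H^1(K, H^{i-1}(X̄)(j))`, and `H` is a subspace of `V` given by local conditions. -/
structure Sys (F : Type) [Field F] where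
  Fld : Type u
  Q : Fld
  Var : Fld → Type u
  dim : ∀ {K}, Var K → ℕ
  rat : ∀ {K}, Var K → Prop
  dat : ∀ {K}, Var K → ℤ → ℤ → Datum.{u} F

namespace Sys

variable {F : Type} [Field F] (T : Sys.{u} F)

/-- Restriction of scalars from `K` to `ℚ`: a smooth projective `K`-scheme `X` is a smooth projective
`ℚ`-scheme `X'` with the same motivic cohomology, and `H^1(ℚ, H(X̄')) = H^1(K, H(X̄))` by Shapiro's
lemma. -/
def HasRestriction : Prop :=
  ∀ {K : T.Fld} (X : T.Var K), ∃ X' : T.Var T.Q, ∀ i j, (T.dat X i j).IsSummand (T.dat X' i j)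

/-- The blow-up `R` of a projective space in `X` (embedded with codimension at least two). -/
def HasBlowUp : Prop :=
  ∀ {K : T.Fld} (X : T.Var K), ∃ R : T.Var K, T.rat R ∧
    ∀ i j, (T.dat X i j).IsSummand (T.dat R (i + 2) (j + 1))

/-- The products `X' = X × P^n`. -/
def HasProjectiveSpaces : Prop :=
  ∀ {K : T.Fld} (X : T.Var K) (n : ℕ), ∃ X' : T.Var K,
    T.dim X' = T.dim X + n ∧ (T.rat X → T.rat X') ∧
      ∀ (i j : ℤ) (s : ℕ), s ≤ n → (T.dat X i j).IsSummand (T.dat X' (i + 2 * s) (j + s))

/-- The formal properties which are used. -/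
structure IsRegulator : Prop where
  restriction : T.HasRestriction
  blowUp : T.HasBlowUp
  projectiveSpaces : T.HasProjectiveSpaces

/-- Chow motives `(X, e, n)` over the number fields and their Abel–Jacobi maps. -/
structure Motives where
  Mot : T.Fld → Type u
  mdat : ∀ {K}, Mot K → Datum.{u} F

/-- A motive is a direct summand of a twist `(X, id, n)` of the motive of a smooth projective `X`,
and these twists are motives. -/
structure Motives.IsMotives {T : Sys.{u} F} (C : T.Motives) : Prop where
  summand : ∀ {K : T.Fld} (M : C.Mot K), ∃ (X : T.Var K) (n : ℤ),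
    (C.mdat M).IsSummand (T.dat X (2 * n) n)
  twist : ∀ {K : T.Fld} (X : T.Var K) (n : ℤ), ∃ M : C.Mot K,
    (T.dat X (2 * n) n).IsSummand (C.mdat M)

end Sys

end Pool.Agent.X264.RD
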