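import Pool.Agent.X264.RD.Defs

/-!
# Regulators: reduction to rational varieties and the middle cohomology
-/

set_option autoImplicit false

namespace Pool.Agent.X264.RD

universe u

namespace Datum

variable {F : Type} [Field F] {D D' D'' : Datum.{u} F}

lemma IsSummand.inj (h : D.IsSummand D') (h' : D'.Inj) : D.Inj := by
  obtain ⟨a, b, α, β, ⟨h3, h5⟩, ⟨h4, h6⟩, h1, h2⟩ := h
  intro x y hxy
  have e : a x = a y := h' (by rw [h3, h3, hxy])
  rw [← h1 x, ← h1 y, e]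

lemma IsSummand.good (h : D.IsSummand D') (h' : D'.Good) : D.Good := by
  refine ⟨h.inj h'.1, ?_⟩
  obtain ⟨a, b, α, β, ⟨h3, h5⟩, ⟨h4, h6⟩, h1, h2⟩ := h
  apply le_antisymm
  · rintro y ⟨x, rfl⟩
    have e : D'.r (a x) ∈ D'.H := by
      rw [← h'.2]
      exact ⟨a x, rfl⟩
    have e2 := h6 _ e
    rwa [h3, h2] at e2
  · intro y hy
    have e : α y ∈ LinearMap.range D'.r := by
      rw [h'.2]
      exact h5 y hy
    obtain ⟨x, hx⟩ := e
    exact ⟨b x, by rw [h4, hx, h2]⟩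

lemma IsSummand.trans (h : D.IsSummand D') (h' : D'.IsSummand D'') : D.IsSummand D'' := by
  obtain ⟨a, b, α, β, ⟨h3, h5⟩, ⟨h4, h6⟩, h1, h2⟩ := h
  obtain ⟨a', b', α', β', ⟨k3, k5⟩, ⟨k4, k6⟩, k1, k2⟩ := h'
  refine ⟨a'.comp a, b.comp b', α'.comp α, β.comp β', ⟨?_, ?_⟩, ⟨?_, ?_⟩, ?_, ?_⟩
  · intro x
    simp only [LinearMap.comp_apply, k3, h3]
  · intro y hy
    exact k5 _ (h5 y hy)
  · intro x
    simp only [LinearMap.comp_apply, h4, k4]
  · intro y hy
    exact h6 _ (k6 y hy)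
  · intro x
    simp only [LinearMap.comp_apply, k1, h1]
  · intro x
    simp only [LinearMap.comp_apply, k2, h2]

end Datum

namespace Sys

variable {F : Type} [Field F] {T : Sys.{u} F}

/-- Every regulator is a direct summand of the one of a rational variety over `ℚ`, in the middle
degree of the cohomology, with `i' - 2 j' = i - 2 j`. -/
lemma exists_middle (hT : T.IsRegulator) {K : T.Fld} (X : T.Var K) (i j : ℤ) :
    ∃ (R : T.Var T.Q) (i' j' : ℤ), T.rat R ∧ (T.dim R : ℤ) + 1 = i' ∧ i' - 2 * j' = i - 2 * j ∧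
      (T.dat X i j).IsSummand (T.dat R i' j') := by
  obtain ⟨X₁, h1⟩ := hT.restriction X
  obtain ⟨X₂, hr, h2⟩ := hT.blowUp X₁
  have key : ∃ n s : ℕ, s ≤ n ∧ ((T.dim X₂ : ℤ) + n) + 1 = i + 2 + 2 * s := by
    by_cases h0 : i + 1 ≤ (T.dim X₂ : ℤ)
    · refine ⟨((T.dim X₂ : ℤ) - (i + 1)).toNat, ((T.dim X₂ : ℤ) - (i + 1)).toNat, le_rfl, ?_⟩
      have := Int.toNat_of_nonneg (sub_nonneg.mpr h0)
      omega
    · refine ⟨(i + 1 - (T.dim X₂ : ℤ)).toNat, 0, Nat.zero_le _, ?_⟩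
      have := Int.toNat_of_nonneg (a := i + 1 - (T.dim X₂ : ℤ)) (by omega)
      push_cast
      omega
  obtain ⟨n, s, hs, hn⟩ := key
  obtain ⟨X₃, hd, hr', h3⟩ := hT.projectiveSpaces X₂ n
  refine ⟨X₃, i + 2 + 2 * s, j + 1 + s, hr' hr, ?_, by ring, ?_⟩
  · rw [hd]
    push_cast
    exact hn
  · exact ((h1 i j).trans (h2 i j)).trans (h3 (i + 2) (j + 1) s hs)

theorem good_iff (hT : T.IsRegulator) :
    (∀ (K : T.Fld) (X : T.Var K) (i j : ℤ), (T.dat X i j).Good) ↔
      ∀ (X : T.Var T.Q) (i j : ℤ), T.rat X → (T.dim X : ℤ) + 1 = i → (T.dat X i j).Good := by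
  constructor
  · intro h X i j _ _
    exact h _ X i j
  · intro h K X i j
    obtain ⟨R, i', j', h1, h2, -, h3⟩ := exists_middle hT X i j
    exact h3.good (h R i' j' h1 h2)

/-- The same for the regulators with fixed `n = 2 j - i` (the index of the `K`-group). -/
theorem good_iff_index (hT : T.IsRegulator) (n : ℤ) :
    (∀ (K : T.Fld) (X : T.Var K) (i j : ℤ), 2 * j - i = n → (T.dat X i j).Good) ↔
      ∀ (X : T.Var T.Q) (i j : ℤ), 2 * j - i = n → T.rat X → (T.dim X : ℤ) + 1 = i →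
        (T.dat X i j).Good := by
  constructor
  · intro h X i j hn _ _
    exact h _ X i j hn
  · intro h K X i j hn
    obtain ⟨R, i', j', h1, h2, h4, h3⟩ := exists_middle hT X i j
    exact h3.good (h R i' j' (by omega) h1 h2)

theorem motives_iff (hT : T.IsRegulator) (C : T.Motives) (hC : C.IsMotives) :
    (∀ (K : T.Fld) (M : C.Mot K), (C.mdat M).Inj) ↔
      ∀ (X : T.Var T.Q) (n : ℤ), T.rat X → (T.dim X : ℤ) + 1 = 2 * n →
        (T.dat X (2 * n) n).Inj := by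
  constructor
  · intro h X n _ _
    obtain ⟨M, hM⟩ := hC.twist X n
    exact hM.inj (h _ M)
  · intro h K M
    obtain ⟨X, n, hM⟩ := hC.summand M
    obtain ⟨R, i', j', h1, h2, h4, h3⟩ := exists_middle hT X (2 * n) n
    have h5 : i' = 2 * j' := by omega
    subst h5
    exact (hM.trans h3).inj (h R j' h1 h2)

end Sys

end Pool.Agent.X264.RD
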